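import Pool.Agent.ZES.StmtsK

set_option autoImplicit false

namespace Pool.Agent.ZES.H82

open scoped BigOperators InnerProductSpace
open Pool.Agent.THS

theorem pr_zero {g : ℕ} (τ : Matrix (Fin g) (Fin g) ℂ) : pr τ 0 0 = 0 := by
  funext i
  simp [pr]

theorem pr_add {g : ℕ} (τ : Matrix (Fin g) (Fin g) ℂ) (p q p' q' : Fin g → ℤ) :
    pr τ (p + p') (q + q') = pr τ p q + pr τ p' q' := by
  funext i
  simp only [pr, Pi.add_apply, Int.cast_add, mul_add, Finset.sum_add_distrib]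
  ring

theorem pr_neg {g : ℕ} (τ : Matrix (Fin g) (Fin g) ℂ) (p q : Fin g → ℤ) :
    pr τ (-p) (-q) = -pr τ p q := by
  funext i
  simp only [pr, Pi.neg_apply, Int.cast_neg, mul_neg, Finset.sum_neg_distrib]
  ring

theorem inlat_iff {g : ℕ} (τ : Matrix (Fin g) (Fin g) ℂ) (w : Fin g → ℂ) :
    InLat τ w ↔ ∃ p q : Fin g → ℤ, w = pr τ p q := by
  constructor
  · rintro ⟨p, q, h⟩
    exact ⟨p, q, funext h⟩
  · rintro ⟨p, q, h⟩
    exact ⟨p, q, fun i => congrFun h i⟩

theorem exp_int (k : ℤ) : Complex.exp (Real.pi * Complex.I * (k : ℂ)) ^ 2 = 1 := by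
  rw [← Complex.exp_nat_mul, Complex.exp_eq_one_iff]
  exact ⟨k, by push_cast; ring⟩

open Classical in
/-- the semicharacter -/
noncomputable def chi {g : ℕ} (τ : Matrix (Fin g) (Fin g) ℂ)
    (Λ : (Fin g → ℂ) ≃L[ℂ] EuclideanSpace ℂ (Fin g)) (v : EuclideanSpace ℂ (Fin g)) : ℂ :=
  if h : ∃ pq : (Fin g → ℤ) × (Fin g → ℤ), Λ.symm v = pr τ pq.1 pq.2 then
    Complex.exp (Real.pi * Complex.I * ((∑ i, h.choose.1 i * h.choose.2 i : ℤ) : ℂ)) else 1

theorem chi_pr {g : ℕ} (τ : Matrix (Fin g) (Fin g) ℂ)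
    (Λ : (Fin g → ℂ) ≃L[ℂ] EuclideanSpace ℂ (Fin g))
    (hu : ∀ p q p' q' : Fin g → ℤ, pr τ p q = pr τ p' q' → p = p' ∧ q = q')
    (p q : Fin g → ℤ) :
    chi τ Λ (Λ (pr τ p q)) = Complex.exp (Real.pi * Complex.I * ((∑ i, p i * q i : ℤ) : ℂ)) := by
  have h : ∃ pq : (Fin g → ℤ) × (Fin g → ℤ), Λ.symm (Λ (pr τ p q)) = pr τ pq.1 pq.2 :=
    ⟨(p, q), by simp⟩
  have hs := h.choose_spec
  have hs2 : pr τ p q = pr τ h.choose.1 h.choose.2 := by
    rw [← hs]; simp
  obtain ⟨h1, h2⟩ := hu _ _ _ _ hs2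
  unfold chi
  rw [dif_pos h, ← h1, ← h2]

theorem gau (h1 : QmxStmt) (h2 : PqiStmt) (h3 : AliStmt) : GauStmt := by
  intro g τ hτ
  obtain ⟨Λ, hΛ⟩ := h1 g (τ.map Complex.im) hτ.2
  obtain ⟨hu, ⟨ε, hε, hdisc⟩, hspan⟩ := h2 g τ hτ
  have hali := h3 g τ hτ (τ.map Complex.im) rfl
  set Y : Matrix (Fin g) (Fin g) ℝ := τ.map Complex.im with hY
  set β : (Fin g → ℂ) → ℂ := fun x =>
    (Real.pi : ℂ) / 2 * (∑ i, ∑ j, x i * ((Y⁻¹ i j : ℝ) : ℂ) * x j) with hβ
  set L : AddSubgroup (EuclideanSpace ℂ (Fin g)) :=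
    { carrier := {v | InLat τ (Λ.symm v)}
      add_mem' := by
        intro a b ha hb
        obtain ⟨p, q, hpq⟩ := (inlat_iff τ _).1 ha
        obtain ⟨p', q', hpq'⟩ := (inlat_iff τ _).1 hb
        refine (inlat_iff τ _).2 ⟨p + p', q + q', ?_⟩
        rw [map_add, hpq, hpq', pr_add]
      zero_mem' := (inlat_iff τ _).2 ⟨0, 0, by rw [map_zero, pr_zero]⟩
      neg_mem' := by
        intro a ha
        obtain ⟨p, q, hpq⟩ := (inlat_iff τ _).1 ha
        exact (inlat_iff τ _).2 ⟨-p, -q, by rw [map_neg, hpq, pr_neg]⟩ } with hL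
  have hmem : ∀ v, v ∈ L ↔ InLat τ (Λ.symm v) := fun v => Iff.rfl
  have hmem2 : ∀ v, v ∈ L ↔ ∃ p q : Fin g → ℤ, v = Λ (pr τ p q) := by
    intro v
    rw [hmem, inlat_iff]
    constructor
    · rintro ⟨p, q, h⟩
      exact ⟨p, q, by rw [← h]; simp⟩
    · rintro ⟨p, q, h⟩
      exact ⟨p, q, by rw [h]; simp⟩
  have hdβ : Differentiable ℂ β := by
    rw [hβ]
    fun_prop
  have hnorm : ∀ v : EuclideanSpace ℂ (Fin g), (((‖v‖ ^ 2 / 2 : ℝ)) : ℂ) = inner ℂ v v / 2 := by
    intro v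
    rw [inner_self_eq_norm_sq_to_K]
    push_cast
    simp
  have hkey : ∀ (n : ℕ) (p q : Fin g → ℤ) (x : Fin g → ℂ),
      chi τ Λ (Λ (pr τ p q)) ^ n * al (Real.pi * (n : ℝ)) (Λ (pr τ p q)) (Λ x)
        * Complex.exp ((n : ℂ) * β x)
      = Complex.exp (-(Real.pi * Complex.I * (n : ℂ)
        * ∑ i, ∑ j, (q i : ℂ) * τ i j * (q j : ℂ))
      - 2 * Real.pi * Complex.I * (n : ℂ) * ∑ i, (q i : ℂ) * x i)
        * Complex.exp ((n : ℂ) * β (x + pr τ p q)) := by
    intro n p q x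
    have ha := (hali p q).1 x
    rw [chi_pr τ Λ hu, al, hnorm, hΛ, hΛ, ← Complex.exp_nat_mul, ← Complex.exp_add,
      ← Complex.exp_add, ← Complex.exp_add]
    congr 1
    rw [hβ]
    simp only []
    rw [ha]
    push_cast
    ring
  refine ⟨Λ, L, chi τ Λ, β, ?_, hdβ, hmem, ?_⟩
  · refine ⟨?_, ?_, ?_, ?_⟩
    · -- discrete
      refine discreteTopology_of_isOpen_singleton_zero ?_
      set δ : ℝ := ε / (‖(Λ.symm : EuclideanSpace ℂ (Fin g) →L[ℂ] (Fin g → ℂ))‖ + 1) with hδ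
      have hpos : 0 < ‖(Λ.symm : EuclideanSpace ℂ (Fin g) →L[ℂ] (Fin g → ℂ))‖ + 1 := by
        positivity
      have hδ0 : 0 < δ := div_pos hε hpos
      have hset : ({0} : Set L) = {x : L | ‖(x : EuclideanSpace ℂ (Fin g))‖ < δ} := by
        ext x
        constructor
        · intro hx
          rw [Set.mem_singleton_iff] at hx
          rw [hx]
          show ‖((0 : L) : EuclideanSpace ℂ (Fin g))‖ < δ
          simpa using hδ0
        · intro hx
          have hx' : ‖(x : EuclideanSpace ℂ (Fin g))‖ < δ := hx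
          have h4 : ‖Λ.symm (x : EuclideanSpace ℂ (Fin g))‖ < ε := by
            have h5 := (Λ.symm : EuclideanSpace ℂ (Fin g) →L[ℂ] (Fin g → ℂ)).le_opNorm
              (x : EuclideanSpace ℂ (Fin g))
            have h6 : ‖Λ.symm (x : EuclideanSpace ℂ (Fin g))‖ ≤
                ‖(Λ.symm : EuclideanSpace ℂ (Fin g) →L[ℂ] (Fin g → ℂ))‖
                  * ‖(x : EuclideanSpace ℂ (Fin g))‖ := h5
            have h7 : (‖(Λ.symm : EuclideanSpace ℂ (Fin g) →L[ℂ] (Fin g → ℂ))‖ + 1) * δ = ε := by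
              rw [hδ]; field_simp
            nlinarith [norm_nonneg (x : EuclideanSpace ℂ (Fin g)),
              norm_nonneg (Λ.symm : EuclideanSpace ℂ (Fin g) →L[ℂ] (Fin g → ℂ))]
          have h8 := hdisc _ ((hmem _).1 x.2) h4
          have h9 : (x : EuclideanSpace ℂ (Fin g)) = 0 := by
            have := congrArg Λ h8
            simpa using this
          rw [Set.mem_singleton_iff]
          exact Subtype.ext h9
      rw [hset]
      exact isOpen_lt (continuous_norm.comp continuous_subtype_val) continuous_const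
    · -- span
      have himg : (L : Set (EuclideanSpace ℂ (Fin g))) =
          ((Λ.toLinearEquiv.restrictScalars ℝ).toLinearMap) '' {w : Fin g → ℂ | InLat τ w} := by
        ext v
        constructor
        · intro hv
          refine ⟨Λ.symm v, (hmem v).1 hv, ?_⟩
          show Λ (Λ.symm v) = v
          simp
        · rintro ⟨w, hw, rfl⟩
          show InLat τ (Λ.symm (Λ w))
          simpa using hw
      rw [himg, Submodule.span_image, hspan, Submodule.map_top, LinearEquiv.range]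
    · -- square
      intro ω hω
      obtain ⟨p, q, rfl⟩ := (hmem2 ω).1 hω
      rw [chi_pr τ Λ hu]
      exact exp_int _
    · intro ω hω η hη
      obtain ⟨p, q, rfl⟩ := (hmem2 ω).1 hω
      obtain ⟨p', q', rfl⟩ := (hmem2 η).1 hη
      rw [← map_add, ← pr_add, chi_pr τ Λ hu, chi_pr τ Λ hu, chi_pr τ Λ hu, hΛ,
        (hali p q).2 p' q', ← Complex.exp_add, ← Complex.exp_add, Complex.exp_eq_exp_iff_exists_int]
      refine ⟨∑ i, q i * p' i, ?_⟩
      simp only [Pi.add_apply]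
      push_cast
      have e1 : (∑ i, ((p i : ℂ) + (p' i : ℂ)) * ((q i : ℂ) + (q' i : ℂ))) =
          ∑ i, (p i : ℂ) * (q i : ℂ) + ∑ i, (p' i : ℂ) * (q' i : ℂ)
            + ∑ i, ((q' i : ℂ) * (p i : ℂ) - (q i : ℂ) * (p' i : ℂ))
            + 2 * ∑ i, (q i : ℂ) * (p' i : ℂ) := by
        rw [Finset.mul_sum, ← Finset.sum_add_distrib, ← Finset.sum_add_distrib,
          ← Finset.sum_add_distrib]
        refine Finset.sum_congr rfl fun i _ => ?_
        ring
      rw [e1]
      ring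
  · intro n F
    constructor
    · rintro ⟨hF1, hF2⟩
      refine ⟨?_, ?_⟩
      · have hd1 : Differentiable ℂ (fun v : EuclideanSpace ℂ (Fin g) => F (Λ.symm v)) :=
          hF1.comp Λ.symm.differentiable
        have hd2 : Differentiable ℂ (fun v : EuclideanSpace ℂ (Fin g) => β (Λ.symm v)) :=
          hdβ.comp Λ.symm.differentiable
        exact hd1.mul (Complex.differentiable_exp.comp (hd2.const_mul _))
      · intro ω hω v
        obtain ⟨p, q, rfl⟩ := (hmem2 ω).1 hω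
        have h4 := hkey n p q (Λ.symm v)
        have h5 : Λ (Λ.symm v) = v := by simp
        rw [h5] at h4
        show F (Λ.symm (v + Λ (pr τ p q))) * Complex.exp ((n : ℂ) * β (Λ.symm (v + Λ (pr τ p q))))
          = chi τ Λ (Λ (pr τ p q)) ^ n * al (Real.pi * (n : ℝ)) (Λ (pr τ p q)) v
            * (F (Λ.symm v) * Complex.exp ((n : ℂ) * β (Λ.symm v)))
        have h6 : Λ.symm (v + Λ (pr τ p q)) = Λ.symm v + pr τ p q := by
          rw [map_add]; simp
        rw [h6, hF2]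
        linear_combination (-(F (Λ.symm v))) * h4
    · rintro ⟨hG1, hG2⟩
      have hG1' : Differentiable ℂ (fun v : EuclideanSpace ℂ (Fin g) =>
        F (Λ.symm v) * Complex.exp ((n : ℂ) * β (Λ.symm v))) := hG1
      refine ⟨?_, ?_⟩
      · have hd1 : Differentiable ℂ (fun x : Fin g → ℂ =>
            (F (Λ.symm (Λ x)) * Complex.exp ((n : ℂ) * β (Λ.symm (Λ x))))
              * Complex.exp (-((n : ℂ) * β x))) :=
          (hG1'.comp Λ.differentiable).mul (Complex.differentiable_exp.comp (hdβ.const_mul _).neg)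
        have hd2 : (fun x : Fin g → ℂ =>
            (F (Λ.symm (Λ x)) * Complex.exp ((n : ℂ) * β (Λ.symm (Λ x))))
              * Complex.exp (-((n : ℂ) * β x))) = F := by
          funext x
          have h5 : Λ.symm (Λ x) = x := by simp
          rw [h5, mul_assoc, ← Complex.exp_add, add_neg_cancel, Complex.exp_zero, mul_one]
        rw [hd2] at hd1
        exact hd1
      · intro x p q
        have h4 := hkey n p q x
        have h7 := hG2 (Λ (pr τ p q)) ((hmem2 _).2 ⟨p, q, rfl⟩) (Λ x)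
        have h8 : F (Λ.symm (Λ x + Λ (pr τ p q)))
            * Complex.exp ((n : ℂ) * β (Λ.symm (Λ x + Λ (pr τ p q))))
          = chi τ Λ (Λ (pr τ p q)) ^ n * al (Real.pi * (n : ℝ)) (Λ (pr τ p q)) (Λ x)
            * (F (Λ.symm (Λ x)) * Complex.exp ((n : ℂ) * β (Λ.symm (Λ x)))) := h7
        have h6 : Λ.symm (Λ x + Λ (pr τ p q)) = x + pr τ p q := by
          rw [map_add]; simp
        have h5 : Λ.symm (Λ x) = x := by simp
        rw [h6, h5] at h8
        have hne : Complex.exp ((n : ℂ) * β (x + pr τ p q)) ≠ 0 := Complex.exp_ne_zero _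
        refine mul_right_cancel₀ hne ?_
        linear_combination h8 + F x * h4

end Pool.Agent.ZES.H82
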