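import Pool.Agent.ZES.StmtsG

set_option autoImplicit false

namespace Pool.Agent.ZES.H82

open scoped BigOperators

theorem vmz (h1 : PwdStmt) : VmzStmt := by
  intro V _ _ E hE G m hst h hh z hz
  have hd := (h1 V E hE m).1
  have hmem : h ∈ (E ^ m ⊓ Van G) * E ^ m := hst hh
  have key : ∀ h' ∈ (E ^ m ⊓ Van G) * E ^ m, Differentiable ℂ h' ∧ h' z = 0 ∧
      ∀ v : V, (∀ f ∈ E ^ m ⊓ Van G, fderiv ℂ f z v = 0) → fderiv ℂ h' z v = 0 := by
    intro h' hh'
    refine Submodule.mul_induction_on hh' ?_ ?_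
    · intro f hf p hp
      have hfd := hd f hf.1
      have hpd := hd p hp
      have hf0 : f z = 0 := hz f hf
      refine ⟨hfd.mul hpd, ?_, ?_⟩
      · show f z * p z = 0
        rw [hf0, zero_mul]
      · intro v hv
        have h2 : fderiv ℂ (f * p) z = f z • fderiv ℂ p z + p z • fderiv ℂ f z :=
          fderiv_mul (hfd z) (hpd z)
        rw [h2]
        simp [hf0, hv f hf]
    · intro a b ha hb
      refine ⟨ha.1.add hb.1, ?_, ?_⟩
      · show a z + b z = 0
        rw [ha.2.1, hb.2.1, add_zero]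
      · intro v hv
        have h2 : fderiv ℂ (a + b) z = fderiv ℂ a z + fderiv ℂ b z :=
          fderiv_add (ha.1 z) (hb.1 z)
        rw [h2]
        simp [ha.2.2 v hv, hb.2.2 v hv]
  exact ⟨(key h hmem).2.1, (key h hmem).2.2⟩

end Pool.Agent.ZES.H82
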